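import Pool.Agent.K3h22.EX.Stm6

/-!
# Project ET, brick GPQ: the real parts of the points of a complex subspace in general position
-/

set_option autoImplicit false

namespace Pool.Agent.K3h76.ET

open Pool.Agent.K3h22.EX Module

/-- the real parts of the coordinates -/
noncomputable def reMap {n s : ℕ} (ℓ : Fin n → Fin s → ℂ) : (Fin s → ℂ) →ₗ[ℝ] (Fin n → ℝ) where
  toFun ζ i := (dot (ℓ i) ζ).re
  map_add' x y := by
    funext i
    simp only [dot, Pi.add_apply, mul_add, Finset.sum_add_distrib, Complex.add_re]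
  map_smul' c x := by
    funext i
    simp only [dot, Pi.smul_apply, RingHom.id_apply, Complex.real_smul, smul_eq_mul]
    rw [← Complex.re_ofReal_mul, Finset.mul_sum]
    congr 1
    refine Finset.sum_congr rfl fun j _ => ?_
    ring

/-- the linear forms with the coefficients `M` -/
def rowMap {n k : ℕ} (M : Fin k → Fin n → ℝ) : (Fin n → ℝ) →ₗ[ℝ] (Fin k → ℝ) where
  toFun x i := ∑ j, M i j * x j
  map_add' x y := by
    funext i
    simp only [Pi.add_apply, mul_add, Finset.sum_add_distrib]
  map_smul' c x := by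
    funext i
    simp only [Pi.smul_apply, RingHom.id_apply, smul_eq_mul, Finset.mul_sum]
    refine Finset.sum_congr rfl fun j _ => ?_
    ring

theorem surj {n s k : ℕ} (ℓ : Fin n → Fin s → ℂ) (M : Fin k → Fin n → ℚ)
    (h : ∀ c : Fin k → ℝ, (∀ a, ∑ i, (c i : ℂ) * ∑ j, (M i j : ℂ) * ℓ j a = 0) → c = 0) :
    Function.Surjective ((rowMap fun i j => (M i j : ℝ)).comp (reMap ℓ)) := by
  rw [← LinearMap.range_eq_top]
  by_contra hne
  obtain ⟨f, hf0, hf⟩ := Submodule.exists_le_ker_of_lt_top _ (lt_top_iff_ne_top.2 hne)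
  apply hf0
  have hfc : ∀ y : Fin k → ℝ, f y = ∑ i, f (Pi.single i 1) * y i := by
    intro y
    conv_lhs => rw [← Finset.univ_sum_single y]
    rw [map_sum]
    refine Finset.sum_congr rfl fun i _ => ?_
    have : Pi.single i (y i) = (y i) • (Pi.single i (1 : ℝ) : Fin k → ℝ) := by
      rw [← Pi.single_smul]
      simp
    rw [this, map_smul, smul_eq_mul, mul_comm]
  have hc := h (fun i => f (Pi.single i 1)) ?_
  · refine LinearMap.ext fun y => ?_
    rw [hfc]
    have h1 : ∀ i, f (Pi.single i 1) = 0 := fun i => congrFun hc i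
    simp [h1]
  · intro a
    set w : ℂ := ∑ i, ((f (Pi.single i 1) : ℝ) : ℂ) * ∑ j, (M i j : ℂ) * ℓ j a with hw
    have key : ∀ z : ℂ, (w * z).re = 0 := by
      intro z
      have h1 : f (((rowMap fun i j => (M i j : ℝ)).comp (reMap ℓ)) (Pi.single a z)) = 0 :=
        hf ⟨_, rfl⟩
      rw [hfc] at h1
      have h2 : w * z = ∑ i, ((f (Pi.single i 1) : ℝ) : ℂ) *
          ∑ j, (((M i j : ℝ) : ℂ) * dot (ℓ j) (Pi.single a z)) := by
        rw [hw, Finset.sum_mul]
        refine Finset.sum_congr rfl fun i _ => ?_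
        rw [mul_assoc, Finset.sum_mul]
        congr 1
        refine Finset.sum_congr rfl fun j _ => ?_
        have h3 : dot (ℓ j) (Pi.single a z) = ℓ j a * z := by
          unfold dot
          rw [Finset.sum_eq_single a]
          · rw [Pi.single_eq_same]
          · intro b _ hb
            rw [Pi.single_eq_of_ne hb, mul_zero]
          · intro hb
            exact absurd (Finset.mem_univ a) hb
        rw [h3]
        push_cast
        ring
      rw [h2, Complex.re_sum, ← h1]
      refine Finset.sum_congr rfl fun i _ => ?_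
      rw [Complex.re_ofReal_mul, Complex.re_sum]
      congr 1
      refine Finset.sum_congr rfl fun j _ => ?_
      rw [Complex.re_ofReal_mul]
      rfl
    have h4 := key (starRingEnd ℂ w)
    rw [Complex.mul_conj, Complex.ofReal_re] at h4
    exact Complex.normSq_eq_zero.1 h4

theorem t_GPQ : S_GPQ := by
  intro s n ℓ hM
  classical
  have hsurj : ∀ (k : ℕ) (M : Fin k → Fin n → ℚ), k ≤ 2 * s → LinearIndependent ℚ M →
      Function.Surjective ((rowMap fun i j => (M i j : ℝ)).comp (reMap ℓ)) :=
    fun k M hk hi => surj ℓ M fun c hc => hM k M c hk hi hc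
  have hfr : finrank ℝ (Fin s → ℂ) = 2 * s := by
    rw [Module.finrank_pi_fintype]
    simp [Complex.finrank_real_complex, mul_comm]
  set Q : Submodule ℝ (Fin n → ℝ) := LinearMap.range (reMap ℓ) with hQ
  -- many coordinates
  have hdim : min n (2 * s) ≤ finrank ℝ Q := by
    set k0 := min n (2 * s) with hk0
    let M : Fin k0 → Fin n → ℚ := fun i => Pi.single (Fin.castLE (min_le_left _ _) i) 1
    have hi : LinearIndependent ℚ M := by
      have h1 : LinearIndependent ℚ (fun i : Fin n => (Pi.single i 1 : Fin n → ℚ)) := by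
        have := (Pi.basisFun ℚ (Fin n)).linearIndependent
        have h2 : (⇑(Pi.basisFun ℚ (Fin n))) = fun i : Fin n => (Pi.single i 1 : Fin n → ℚ) := by
          funext i
          rw [Pi.basisFun_apply]
        rwa [h2] at this
      exact h1.comp _ (Fin.castLE_injective _)
    have h1 := hsurj k0 M (min_le_right _ _) hi
    have h2 : Function.Surjective ((rowMap fun i j => (M i j : ℝ)).domRestrict Q) := by
      intro y
      obtain ⟨ζ, hζ⟩ := h1 y
      exact ⟨⟨reMap ℓ ζ, ⟨ζ, rfl⟩⟩, hζ⟩
    have h3 := LinearMap.finrank_le_finrank_of_surjective h2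
    rwa [Module.finrank_fin_fun] at h3
  -- the equations
  set e := finrank ℝ ((Fin n → ℝ) ⧸ Q) with he
  have hen : e ≤ n - 2 * s := by
    have h1 := Submodule.finrank_quotient_add_finrank Q
    rw [Module.finrank_fin_fun] at h1
    omega
  let Φ : (Fin n → ℝ) →ₗ[ℝ] (Fin e → ℝ) :=
    ((finBasis ℝ ((Fin n → ℝ) ⧸ Q)).equivFun : _ →ₗ[ℝ] (Fin e → ℝ)).comp Q.mkQ
  have hΦ : ∀ w, Φ w = 0 → w ∈ Q := by
    intro w hw
    have h1 : (finBasis ℝ ((Fin n → ℝ) ⧸ Q)).equivFun (Q.mkQ w) = 0 := hw
    rw [LinearEquiv.map_eq_zero_iff] at h1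
    rwa [Submodule.mkQ_apply, Submodule.Quotient.mk_eq_zero] at h1
  have hΦc : ∀ (w : Fin n → ℝ) (i : Fin e), Φ w i = ∑ j, Φ (Pi.single j 1) i * w j := by
    intro w i
    conv_lhs => rw [← Finset.univ_sum_single w]
    rw [map_sum, Finset.sum_apply]
    refine Finset.sum_congr rfl fun j _ => ?_
    have : Pi.single j (w j) = (w j) • (Pi.single j (1 : ℝ) : Fin n → ℝ) := by
      rw [← Pi.single_smul]
      simp
    rw [this, map_smul, Pi.smul_apply, smul_eq_mul, mul_comm]
  refine ⟨Q, fun i j => if h : (i : ℕ) < e then Φ (Pi.single j 1) ⟨i, h⟩ else 0, ?_, ?_, ?_⟩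
  · intro k M
    obtain ⟨r, f, hf1, hf2, hf3⟩ : ∃ (r : ℕ) (f : Fin r → Fin n → ℚ),
        (∀ i, f i ∈ Set.range fun i => (fun j => (M i j : ℚ))) ∧
        Submodule.span ℚ (Set.range f) =
          Submodule.span ℚ (Set.range fun i => (fun j => (M i j : ℚ))) ∧
        LinearIndependent ℚ f := ⟨_, Submodule.exists_fun_fin_finrank_span_eq ℚ _⟩
    rcases le_or_gt r (2 * s) with hle | hgt
    · right
      intro x
      obtain ⟨ζ, hζ⟩ := hsurj r f hle hf3 (fun i => ∑ j, (f i j : ℝ) * x j)
      refine ⟨reMap ℓ ζ, ⟨ζ, rfl⟩, fun i => ?_⟩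
      have h1 : ∀ v ∈ Submodule.span ℚ (Set.range f),
          ∑ j, (v j : ℝ) * reMap ℓ ζ j = ∑ j, (v j : ℝ) * x j := by
        intro v hv
        induction hv using Submodule.span_induction with
        | mem v hv =>
          obtain ⟨i, rfl⟩ := hv
          exact congrFun hζ i
        | zero => simp
        | add v w _ _ hv hw =>
          simp only [Pi.add_apply, Rat.cast_add, add_mul, Finset.sum_add_distrib, hv, hw]
        | smul a v _ hv =>
          simp only [Pi.smul_apply, smul_eq_mul, Rat.cast_mul, mul_assoc, ← Finset.mul_sum, hv]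
      have h2 := h1 (fun j => (M i j : ℚ)) (by
        rw [hf2]
        exact Submodule.subset_span ⟨i, rfl⟩)
      simpa using h2
    · left
      rintro x ⟨ζ, rfl⟩ hx
      have hi : LinearIndependent ℚ (f ∘ Fin.castLE hgt.le) :=
        hf3.comp _ (Fin.castLE_injective _)
      have h1 := hsurj (2 * s) (f ∘ Fin.castLE hgt.le) le_rfl hi
      have h2 : Function.Injective ((rowMap fun i j => (((f ∘ Fin.castLE hgt.le) i j : ℚ) : ℝ)).comp
          (reMap ℓ)) := by
        rw [LinearMap.injective_iff_surjective_of_finrank_eq_finrank]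
        · exact h1
        · rw [hfr, Module.finrank_fin_fun]
      have h3 : ζ = 0 := by
        apply h2
        rw [map_zero]
        funext i
        obtain ⟨i', hi'⟩ := hf1 (Fin.castLE hgt.le i)
        show ∑ j, ((f (Fin.castLE hgt.le i) j : ℚ) : ℝ) * reMap ℓ ζ j = 0
        rw [← hi']
        have := hx i'
        simpa using this
      rw [h3, map_zero]
  · rintro w ⟨ζ, rfl⟩
    exact ⟨ζ, fun i => rfl⟩
  · intro w hw
    apply hΦ
    funext i
    have h1 := hw ⟨i, i.2.trans_le hen⟩
    rw [Pi.zero_apply, hΦc, ← h1]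
    refine Finset.sum_congr rfl fun j _ => ?_
    beta_reduce
    rw [dif_pos i.2]

end Pool.Agent.K3h76.ET
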